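import Mathlib.Order.Filter.Ultrafilter.Basic
import Mathlib.Data.Nat.Log
import Mathlib.Data.PNat.Basic
import Mathlib.Tactic

/-!
The two ultrafilter exponentiations never coincide when the second argument is nonprincipal.

The proof uses an iterated-logarithm colouring `lam` of the positive integers: for fixed `n ≥ 2`
and `m → ∞` the number `n ^ m` lies two or three half-levels above `m`, while `m ^ n` lies zero
or one half-level above `m`.
-/

namespace Pool.Agent.Results.MP_d3b762_co.NoCoincidence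

/-- `E₁ p q = {A : {n : {m : n ^ m ∈ A} ∈ q} ∈ p}`. -/
noncomputable def E₁ (p q : Ultrafilter ℕ+) : Ultrafilter ℕ+ :=
  p.bind fun n => q.map fun m => n ^ (m : ℕ)

/-- `E₂ p q = {A : {n : {m : m ^ n ∈ A} ∈ q} ∈ p}`. -/
noncomputable def E₂ (p q : Ultrafilter ℕ+) : Ultrafilter ℕ+ :=
  p.bind fun n => q.map fun m => m ^ (n : ℕ)

theorem mem_E₁ (p q : Ultrafilter ℕ+) (A : Set ℕ+) :
    A ∈ E₁ p q ↔ {n : ℕ+ | {m : ℕ+ | n ^ (m : ℕ) ∈ A} ∈ q} ∈ p := Iff.rfl

theorem mem_E₂ (p q : Ultrafilter ℕ+) (A : Set ℕ+) :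
    A ∈ E₂ p q ↔ {n : ℕ+ | {m : ℕ+ | m ^ (n : ℕ) ∈ A} ∈ q} ∈ p := Iff.rfl

/-- The half-level function: thresholds 3, 4, 8, 16, 256, 65536, ... -/
def lam (x : ℕ) : ℕ :=
  if h : x < 4 then (if x = 3 then 1 else 0) else lam (Nat.log 2 x) + 2
termination_by x
decreasing_by exact Nat.log_lt_self 2 (by omega)

theorem lam_lt {x : ℕ} (h : x < 4) : lam x = if x = 3 then 1 else 0 := by
  rw [lam]; simp [h]

theorem lam_ge {x : ℕ} (h : 4 ≤ x) : lam x = lam (Nat.log 2 x) + 2 := by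
  rw [lam]; simp [Nat.not_lt.mpr h]

theorem lam_lt_le {x : ℕ} (h : x < 4) : lam x ≤ 1 := by
  rw [lam_lt h]; split_ifs <;> omega

theorem lam_mono_aux : ∀ y x : ℕ, x ≤ y → lam x ≤ lam y := by
  intro y
  induction y using Nat.strong_induction_on with
  | _ y ih =>
    intro x hxy
    by_cases hy : y < 4
    · have hx : x < 4 := lt_of_le_of_lt hxy hy
      rw [lam_lt hx, lam_lt hy]
      split_ifs <;> omega
    · push Not at hy
      rw [lam_ge hy]
      by_cases hx : x < 4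
      · have := lam_lt_le hx
        omega
      · push Not at hx
        rw [lam_ge hx]
        have h1 : Nat.log 2 y < y := Nat.log_lt_self 2 (by omega)
        have := ih _ h1 _ (Nat.log_mono_right (b := 2) hxy)
        omega

theorem lam_mono {x y : ℕ} (h : x ≤ y) : lam x ≤ lam y := lam_mono_aux y x h

theorem log_le_of_le_two_mul {x y : ℕ} (hx : x ≠ 0) (h : y ≤ 2 * x) :
    Nat.log 2 y ≤ Nat.log 2 x + 1 := by
  calc Nat.log 2 y ≤ Nat.log 2 (x * 2) := Nat.log_mono_right (by omega)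
    _ = Nat.log 2 x + 1 := Nat.log_mul_base (by norm_num) hx

theorem lam_succ : ∀ x : ℕ, lam (x + 1) ≤ lam x + 1 := by
  intro x
  induction x using Nat.strong_induction_on with
  | _ x ih =>
    by_cases hx : x < 3
    · have := lam_lt_le (x := x + 1) (by omega)
      omega
    · push Not at hx
      rcases Nat.lt_or_ge 3 x with h3 | h3
      · rw [lam_ge (x := x) (by omega), lam_ge (x := x + 1) (by omega)]
        have h1 : Nat.log 2 (x + 1) ≤ Nat.log 2 x + 1 :=
          log_le_of_le_two_mul (by omega) (by omega)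
        have h2 := lam_mono h1
        have h3 := ih (Nat.log 2 x) (Nat.log_lt_self 2 (by omega))
        omega
      · have hx3 : x = 3 := by omega
        subst hx3
        have h4 : lam 4 = 2 := by
          rw [lam_ge (le_refl 4)]
          have : Nat.log 2 4 = 2 := by decide +kernel
          rw [this, lam_lt (by norm_num)]
          simp
        have h3' : lam 3 = 1 := by rw [lam_lt (by norm_num)]; simp
        show lam 4 ≤ lam 3 + 1
        omega

theorem lam_add {m K : ℕ} (h4 : 4 ≤ m) (hK : K ≤ m) : lam (m + K) ≤ lam m + 1 := by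
  rw [lam_ge (x := m + K) (by omega), lam_ge h4]
  have h1 : Nat.log 2 (m + K) ≤ Nat.log 2 m + 1 :=
    log_le_of_le_two_mul (by omega) (by omega)
  have h2 := lam_mono h1
  have h3 := lam_succ (Nat.log 2 m)
  omega

theorem log_mul_le (K m : ℕ) : Nat.log 2 (K * m) ≤ Nat.log 2 m + K := by
  have h : K * m < 2 ^ (Nat.log 2 m + K + 1) := by
    have h1 : m < 2 ^ (Nat.log 2 m + 1) := Nat.lt_pow_succ_log_self (by norm_num) m
    have h2 : K ≤ 2 ^ K := (Nat.lt_two_pow_self).le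
    calc K * m ≤ 2 ^ K * m := Nat.mul_le_mul_right _ h2
      _ < 2 ^ K * 2 ^ (Nat.log 2 m + 1) := by
        exact Nat.mul_lt_mul_of_pos_left h1 (by positivity)
      _ = 2 ^ (Nat.log 2 m + K + 1) := by rw [← pow_add]; congr 1; ring
  by_cases h0 : K * m = 0
  · rw [h0]; simp
  · have := Nat.log_lt_of_lt_pow h0 h
    omega

theorem lam_mul {K m : ℕ} (h4 : 4 ≤ Nat.log 2 m) (hK : K ≤ Nat.log 2 m) :
    lam (K * m) ≤ lam m + 1 := by
  have hm : 4 ≤ m := le_trans h4 (Nat.log_le_self 2 m)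
  by_cases hKm : K * m < 4
  · have := lam_lt_le hKm; omega
  · push Not at hKm
    rw [lam_ge hKm, lam_ge hm]
    have h1 := lam_mono (log_mul_le K m)
    have h2 := lam_add h4 hK
    omega

theorem lam_pow {n m : ℕ} (h4 : 4 ≤ Nat.log 2 (Nat.log 2 m))
    (hn : 2 * n ≤ Nat.log 2 (Nat.log 2 m)) : lam (m ^ n) ≤ lam m + 1 := by
  have hl : 4 ≤ Nat.log 2 m := le_trans h4 (Nat.log_le_self 2 _)
  have hm : 4 ≤ m := le_trans hl (Nat.log_le_self 2 m)
  by_cases hx : m ^ n < 4
  · have := lam_lt_le hx; omega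
  · push Not at hx
    rw [lam_ge hx, lam_ge hm]
    have h1 : Nat.log 2 (m ^ n) ≤ (2 * n) * Nat.log 2 m := by
      have h2 : m ^ n < 2 ^ ((2 * n) * Nat.log 2 m + 1) := by
        have h3 : m < 2 ^ (Nat.log 2 m + 1) := Nat.lt_pow_succ_log_self (by norm_num) m
        calc m ^ n ≤ (2 ^ (Nat.log 2 m + 1)) ^ n := Nat.pow_le_pow_left h3.le n
          _ = 2 ^ ((Nat.log 2 m + 1) * n) := by rw [← pow_mul]
          _ ≤ 2 ^ ((2 * n) * Nat.log 2 m) := by
            apply Nat.pow_le_pow_right (by norm_num)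
            nlinarith
          _ < 2 ^ ((2 * n) * Nat.log 2 m + 1) := by
            apply Nat.pow_lt_pow_right (by norm_num) (by omega)
      have := Nat.log_lt_of_lt_pow (by omega) h2
      omega
    have h2 := lam_mono h1
    have h3 := lam_mul (K := 2 * n) (m := Nat.log 2 m) h4 hn
    omega

theorem lam_two_pow {y : ℕ} (hy : 2 ≤ y) : lam (2 ^ y) = lam y + 2 := by
  have : 4 ≤ 2 ^ y := by
    calc 4 = 2 ^ 2 := by norm_num
      _ ≤ 2 ^ y := Nat.pow_le_pow_right (by norm_num) hy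
  rw [lam_ge this, Nat.log_pow (by norm_num)]

/-- For `n ≥ 2` and `m` large, `n ^ m` is two or three half-levels above `m`. -/
theorem lam_base {n m : ℕ} (hn : 2 ≤ n) (h4 : 4 ≤ Nat.log 2 m) (hK : n ≤ Nat.log 2 m) :
    lam m + 2 ≤ lam (n ^ m) ∧ lam (n ^ m) ≤ lam m + 3 := by
  have hm : 4 ≤ m := le_trans h4 (Nat.log_le_self 2 m)
  constructor
  · have h1 : 2 ^ m ≤ n ^ m := Nat.pow_le_pow_left hn m
    have h2 := lam_mono h1
    rw [lam_two_pow (by omega)] at h2
    exact h2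
  · have h1 : n ^ m ≤ 2 ^ (n * m) := by
      rw [pow_mul]
      exact Nat.pow_le_pow_left (Nat.lt_two_pow_self).le m
    have h2 := lam_mono h1
    have h3 : 2 ≤ n * m := by nlinarith
    rw [lam_two_pow h3] at h2
    have h4 := lam_mul h4 hK
    omega

/-- For `n ≥ 1` and `m` large, `m ^ n` is zero or one half-level above `m`. -/
theorem lam_exp {n m : ℕ} (hn : 1 ≤ n) (h4 : 4 ≤ Nat.log 2 (Nat.log 2 m))
    (hK : 2 * n ≤ Nat.log 2 (Nat.log 2 m)) :
    lam m ≤ lam (m ^ n) ∧ lam (m ^ n) ≤ lam m + 1 := by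
  refine ⟨lam_mono ?_, lam_pow h4 hK⟩
  exact Nat.le_self_pow (by omega) m

/-- For every `K`, all large `m` satisfy `K ≤ log₂ log₂ m`. -/
theorem large_of (K m : ℕ) (h : 2 ^ (2 ^ K) ≤ m) : K ≤ Nat.log 2 (Nat.log 2 m) := by
  have h1 : 2 ^ K ≤ Nat.log 2 m := by
    apply Nat.le_log_of_pow_le (by norm_num) h
  exact Nat.le_log_of_pow_le (by norm_num) h1

theorem eventually_large {q : Ultrafilter ℕ+} (hq : ∀ k : ℕ+, q ≠ pure k) (M : ℕ) :
    {m : ℕ+ | M ≤ (m : ℕ)} ∈ q := by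
  by_contra hcon
  have hc : {m : ℕ+ | M ≤ (m : ℕ)}ᶜ ∈ q := Ultrafilter.compl_mem_iff_notMem.mpr hcon
  have hfin : ({m : ℕ+ | M ≤ (m : ℕ)}ᶜ).Finite := by
    apply Set.Finite.of_finite_image (f := fun m : ℕ+ => (m : ℕ))
    · apply (Set.finite_lt_nat M).subset
      rintro _ ⟨m, hm, rfl⟩
      simpa using hm
    · exact (PNat.coe_injective).injOn
  obtain ⟨x, _, hx⟩ := Ultrafilter.eq_pure_of_finite_mem hfin hc
  exact hq x hx

theorem class_mem (q : Ultrafilter ℕ+) : ∃ i : ℕ, i < 4 ∧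
    {m : ℕ+ | lam (m : ℕ) % 4 = i} ∈ q := by
  by_contra hcon
  push Not at hcon
  have h : ∀ i : ℕ, i < 4 → {m : ℕ+ | lam (m : ℕ) % 4 = i}ᶜ ∈ q := fun i hi =>
    Ultrafilter.compl_mem_iff_notMem.mpr (hcon i hi)
  have h' := Filter.inter_mem (Filter.inter_mem (h 0 (by norm_num)) (h 1 (by norm_num)))
    (Filter.inter_mem (h 2 (by norm_num)) (h 3 (by norm_num)))
  obtain ⟨m, hm⟩ := Filter.nonempty_of_mem h'
  simp only [Set.mem_inter_iff, Set.mem_compl_iff, Set.mem_ofPred_eq] at hm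
  omega

/-- **Main result.** For all ultrafilters `p, q` on the positive integers with `q` nonprincipal,
`E₁ p q ≠ E₂ p q`.  In particular (`p = q`) no nonprincipal `p` satisfies `E₁ p p = E₂ p p`. -/
theorem result (p q : Ultrafilter ℕ+) (hq : ∀ k : ℕ+, q ≠ pure k) : E₁ p q ≠ E₂ p q := by
  intro heq
  obtain ⟨i, hi, hiq⟩ := class_mem q
  -- the separating set
  set A : Set ℕ+ := {x : ℕ+ | (x : ℕ) = 1 ∨ lam (x : ℕ) % 4 = (i + 2) % 4 ∨
    lam (x : ℕ) % 4 = (i + 3) % 4} with hA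
  have h1 : A ∈ E₁ p q := by
    rw [mem_E₁]
    apply Filter.mem_of_superset Filter.univ_mem
    intro n _
    show {m : ℕ+ | n ^ (m : ℕ) ∈ A} ∈ q
    by_cases hn : (n : ℕ) = 1
    · apply Filter.mem_of_superset Filter.univ_mem
      intro m _
      show n ^ (m : ℕ) ∈ A
      left
      rw [PNat.pow_coe, hn, one_pow]
    · have hn2 : 2 ≤ (n : ℕ) := by
        have := n.pos
        omega
      filter_upwards [hiq, eventually_large hq (2 ^ (2 ^ ((n : ℕ) + 4)))] with m hm hlarge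
      have hl := large_of _ _ hlarge
      have hl2 : Nat.log 2 (Nat.log 2 (m : ℕ)) ≤ Nat.log 2 (m : ℕ) := Nat.log_le_self _ _
      have hb := lam_base (n := n) (m := m) hn2 (by omega) (by omega)
      have hm' : lam (m : ℕ) % 4 = i := hm
      right
      rw [PNat.pow_coe]
      omega
  have h2 : A ∉ E₂ p q := by
    rw [← Ultrafilter.compl_mem_iff_notMem, mem_E₂]
    apply Filter.mem_of_superset Filter.univ_mem
    intro n _
    show {m : ℕ+ | m ^ (n : ℕ) ∈ Aᶜ} ∈ q
    filter_upwards [hiq, eventually_large hq (2 ^ (2 ^ (2 * (n : ℕ) + 4)))] with m hm hlarge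
    have hl := large_of _ _ hlarge
    have hb := lam_exp (n := n) (m := m) n.pos (by omega) (by omega)
    have hm' : lam (m : ℕ) % 4 = i := hm
    have hm1 : 2 ≤ (m : ℕ) := by
      have : 2 ^ 1 ≤ 2 ^ (2 ^ (2 * (n : ℕ) + 4)) :=
        Nat.pow_le_pow_right (by norm_num) (Nat.one_le_two_pow)
      omega
    have hne : ((m ^ (n : ℕ) : ℕ+) : ℕ) ≠ 1 := by
      rw [PNat.pow_coe]
      have := Nat.one_lt_pow (n.pos.ne') (by omega : 1 < (m : ℕ))
      omega
    intro hmem
    have hmem' : ((m ^ (n : ℕ) : ℕ+) : ℕ) = 1 ∨ lam ((m ^ (n : ℕ) : ℕ+) : ℕ) % 4 = (i + 2) % 4 ∨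
      lam ((m ^ (n : ℕ) : ℕ+) : ℕ) % 4 = (i + 3) % 4 := hmem
    rcases hmem' with h | h | h
    · exact hne h
    · rw [PNat.pow_coe] at h
      omega
    · rw [PNat.pow_coe] at h
      omega
  rw [heq] at h1
  exact h2 h1

end Pool.Agent.Results.MP_d3b762_co.NoCoincidence
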